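import Pool.Agent.H200G.Stm3

set_option autoImplicit false

/-! Job GR26 (NefU) of project GR (helper200). -/

namespace Pool.Agent.Q195.GR

open Finset Pool.Agent Pool.Agent.H200P Pool.Agent.H200W Pool.Agent.H932R3 Pool.Agent.W609.CR
open Pool.Agent.H200G

/-- the rounded class satisfies the hypotheses of the main theorem -/
lemma round_un {n : ℕ} (x : Fin n → ℝ) (c : Fin n → ℕ) (hx : ∀ i, 0 ≤ x i)
    (hgr : ∀ i, 2 ^ 30 * x i ^ 2 *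
      (((univ.filter fun j => c j = c i ∧ x j ≠ 0).image x).card : ℝ) ≤
      ∑ j ∈ univ.filter (fun j => c j = c i), x j ^ 2)
    (N : ℕ) (hN : 1 ≤ N) (h1 : ∀ i, 0 < x i → 4 * ∑ j, x j ≤ N * x i ^ 2) (k : ℕ) :
    Un (fun i => k * ⌊(N : ℝ) * x i⌋₊) (univ : Finset (Fin n)) := by
  classical
  have hN0 : (1 : ℝ) ≤ N := by exact_mod_cast hN
  have hNp : (0 : ℝ) < N := by linarith
  have hv : ∀ i, ((⌊(N : ℝ) * x i⌋₊ : ℕ) : ℝ) ≤ N * x i := fun i =>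
    Nat.floor_le (mul_nonneg hNp.le (hx i))
  have hv' : ∀ i, (N : ℝ) * x i < ((⌊(N : ℝ) * x i⌋₊ : ℕ) : ℝ) + 1 := fun i =>
    Nat.lt_floor_add_one _
  refine ⟨c, fun i _ => ?_⟩
  show 2 ^ 29 * (k * ⌊(N : ℝ) * x i⌋₊) ^ 2 *
      ((univ.filter fun j => c j = c i ∧ k * ⌊(N : ℝ) * x j⌋₊ ≠ 0).image
      (fun i => k * ⌊(N : ℝ) * x i⌋₊)).card ≤
      ∑ j ∈ univ.filter (fun j => c j = c i), (k * ⌊(N : ℝ) * x j⌋₊) ^ 2
  rcases (hx i).eq_or_lt with h0 | h0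
  · have hz : k * ⌊(N : ℝ) * x i⌋₊ = 0 := by
      rw [← h0]
      simp
    rw [hz]
    simp
  have hcard : (((univ.filter fun j => c j = c i ∧ k * ⌊(N : ℝ) * x j⌋₊ ≠ 0).image
      (fun i => k * ⌊(N : ℝ) * x i⌋₊)).card : ℝ) ≤
      (((univ.filter fun j => c j = c i ∧ x j ≠ 0).image x).card : ℝ) := by
    have hsub : (univ.filter fun j => c j = c i ∧ k * ⌊(N : ℝ) * x j⌋₊ ≠ 0).image
        (fun i => k * ⌊(N : ℝ) * x i⌋₊) ⊆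
        ((univ.filter fun j => c j = c i ∧ x j ≠ 0).image x).image
          (fun t => k * ⌊(N : ℝ) * t⌋₊) := by
      intro y hy
      rw [Finset.mem_image] at hy
      obtain ⟨j, hj, rfl⟩ := hy
      rw [Finset.mem_filter] at hj
      rw [Finset.mem_image]
      refine ⟨x j, ?_, rfl⟩
      rw [Finset.mem_image]
      refine ⟨j, ?_, rfl⟩
      rw [Finset.mem_filter]
      refine ⟨Finset.mem_univ _, hj.2.1, ?_⟩
      intro hz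
      apply hj.2.2
      rw [hz]
      simp
    exact_mod_cast (Finset.card_le_card hsub).trans Finset.card_image_le
  have e3 : ∀ j, (N : ℝ) ^ 2 * x j ^ 2 - 2 * N * x j ≤ ((⌊(N : ℝ) * x j⌋₊ : ℕ) : ℝ) ^ 2 := by
    intro i
    have f1 := hv' i
    have f2 : 0 ≤ (N : ℝ) * x i := mul_nonneg hNp.le (hx i)
    rcases le_or_gt 1 ((N : ℝ) * x i) with f3 | f3
    · have f4 : ((N : ℝ) * x i - 1) ^ 2 ≤ ((⌊(N : ℝ) * x i⌋₊ : ℕ) : ℝ) ^ 2 :=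
        pow_le_pow_left₀ (by linarith) (by linarith) 2
      nlinarith
    · have f4 : (0 : ℝ) ≤ ((⌊(N : ℝ) * x i⌋₊ : ℕ) : ℝ) ^ 2 := by positivity
      nlinarith
  have e4 : ∑ j ∈ univ.filter (fun j => c j = c i), ((N : ℝ) ^ 2 * x j ^ 2 - 2 * N * x j) ≤
      ∑ j ∈ univ.filter (fun j => c j = c i), ((⌊(N : ℝ) * x j⌋₊ : ℕ) : ℝ) ^ 2 :=
    Finset.sum_le_sum fun j _ => e3 j
  rw [Finset.sum_sub_distrib, ← Finset.mul_sum, ← Finset.mul_sum] at e4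
  have e5 : ∑ j ∈ univ.filter (fun j => c j = c i), x j ≤ ∑ j, x j :=
    Finset.sum_le_sum_of_subset_of_nonneg (Finset.filter_subset _ _) fun i _ _ => hx i
  have e6 : x i ^ 2 ≤ ∑ j ∈ univ.filter (fun j => c j = c i), x j ^ 2 :=
    Finset.single_le_sum (f := fun j => x j ^ 2) (fun j _ => sq_nonneg _)
      (by rw [Finset.mem_filter]; exact ⟨Finset.mem_univ _, rfl⟩)
  have e7 := h1 i h0
  have e8 := hgr i
  set r : ℝ := (((univ.filter fun j => c j = c i ∧ x j ≠ 0).image x).card : ℝ) with hr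
  set Q2 : ℝ := ∑ j ∈ univ.filter (fun j => c j = c i), x j ^ 2 with hQ2
  have hr0 : 0 ≤ r := Nat.cast_nonneg _
  have e9 : (N : ℝ) * x i ^ 2 ≤ N * Q2 := mul_le_mul_of_nonneg_left e6 hNp.le
  have e10 : 2 ^ 29 * ((N : ℝ) * x i) ^ 2 * r ≤
      ∑ j ∈ univ.filter (fun j => c j = c i), ((⌊(N : ℝ) * x j⌋₊ : ℕ) : ℝ) ^ 2 := by
    refine le_trans ?_ e4
    have f1 : (N : ℝ) ^ 2 * (2 ^ 30 * x i ^ 2 * r) ≤ (N : ℝ) ^ 2 * Q2 :=
      mul_le_mul_of_nonneg_left e8 (by positivity)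
    have f2 : 2 * (N : ℝ) * ∑ j ∈ univ.filter (fun j => c j = c i), x j ≤ 2 * (N : ℝ) * ∑ j, x j :=
      mul_le_mul_of_nonneg_left e5 (by positivity)
    have f3 : (N : ℝ) * (4 * ∑ j, x j) ≤ N * (N * Q2) :=
      mul_le_mul_of_nonneg_left (e7.trans e9) hNp.le
    nlinarith
  have e11 : (((⌊(N : ℝ) * x i⌋₊ : ℕ) : ℝ)) ^ 2 ≤ (N * x i) ^ 2 :=
    pow_le_pow_left₀ (Nat.cast_nonneg _) (hv i) 2
  have e12 : ((2 ^ 29 * (k * ⌊(N : ℝ) * x i⌋₊) ^ 2 *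
      ((univ.filter fun j => c j = c i ∧ k * ⌊(N : ℝ) * x j⌋₊ ≠ 0).image
      (fun i => k * ⌊(N : ℝ) * x i⌋₊)).card : ℕ) : ℝ) ≤
      ((∑ j ∈ univ.filter (fun j => c j = c i), (k * ⌊(N : ℝ) * x j⌋₊) ^ 2 : ℕ) : ℝ) := by
    push_cast
    have f1 : ∑ j ∈ univ.filter (fun j => c j = c i),
        ((k : ℝ) * ((⌊(N : ℝ) * x j⌋₊ : ℕ) : ℝ)) ^ 2 =
        (k : ℝ) ^ 2 * ∑ j ∈ univ.filter (fun j => c j = c i), ((⌊(N : ℝ) * x j⌋₊ : ℕ) : ℝ) ^ 2 := by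
      rw [Finset.mul_sum]
      exact Finset.sum_congr rfl fun j _ => by ring
    rw [f1]
    have f2 := mul_le_mul_of_nonneg_left e10 (by positivity : (0 : ℝ) ≤ (k : ℝ) ^ 2)
    refine le_trans ?_ f2
    have f3 : (((⌊(N : ℝ) * x i⌋₊ : ℕ) : ℝ)) ^ 2 *
        (((univ.filter fun j => c j = c i ∧ k * ⌊(N : ℝ) * x j⌋₊ ≠ 0).image
          (fun i => k * ⌊(N : ℝ) * x i⌋₊)).card : ℝ) ≤ (N * x i) ^ 2 * r :=
      mul_le_mul e11 hcard (Nat.cast_nonneg _) (by positivity)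
    have f4 := mul_le_mul_of_nonneg_left f3 (by positivity : (0 : ℝ) ≤ (k : ℝ) ^ 2 * 2 ^ 29)
    calc _ = (k : ℝ) ^ 2 * 2 ^ 29 * ((((⌊(N : ℝ) * x i⌋₊ : ℕ) : ℝ)) ^ 2 *
        (((univ.filter fun j => c j = c i ∧ k * ⌊(N : ℝ) * x j⌋₊ ≠ 0).image
          (fun i => k * ⌊(N : ℝ) * x i⌋₊)).card : ℝ)) := by ring
      _ ≤ _ := f4
      _ = _ := by ring
  exact_mod_cast e12

theorem nefU : S_NefU := by
  intro hEP hUG hNE n P hP a x c ha hx hgr hsq G e u hG hGh hvan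
  obtain ⟨N1, hN1⟩ : ∃ N1 : ℕ, ∀ N : ℕ, N1 ≤ N → ∀ i, 0 < x i →
      4 * ∑ j, x j ≤ (N : ℝ) * x i ^ 2 := by
    have h1 : ∀ i, ∃ N1 : ℕ, ∀ N : ℕ, N1 ≤ N → 0 < x i → 4 * ∑ j, x j ≤ (N : ℝ) * x i ^ 2 := by
      intro i
      by_cases h : 0 < x i
      · obtain ⟨N1, hN1⟩ := exists_nat_ge ((4 * ∑ j, x j) / x i ^ 2)
        refine ⟨N1, fun N hN _ => ?_⟩
        have h2 : (N1 : ℝ) ≤ N := by exact_mod_cast hN
        have h3 : 0 < x i ^ 2 := by positivity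
        rw [div_le_iff₀ h3] at hN1
        have := mul_le_mul_of_nonneg_right h2 h3.le
        linarith
      · exact ⟨0, fun N _ h' => absurd h' h⟩
    choose f hf using h1
    refine ⟨univ.sup f, fun N hN i => hf i N ((Finset.le_sup (Finset.mem_univ i)).trans hN)⟩
  have key : ∀ N : ℕ, N1 ≤ N → 1 ≤ N →
      (N : ℝ) * (∑ i, x i * (u i : ℝ) - a * e) ≤ e + ∑ i, (u i : ℝ) := by
    intro N h1 h3
    have hNp : (0 : ℝ) < N := by exact_mod_cast h3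
    have hd : (N : ℝ) * a ≤ ⌈(N : ℝ) * a⌉₊ := Nat.le_ceil _
    have hd' : ((⌈(N : ℝ) * a⌉₊ : ℕ) : ℝ) ≤ N * a + 1 := (Nat.ceil_lt_add_one (by positivity)).le
    have hv : ∀ i, ((⌊(N : ℝ) * x i⌋₊ : ℕ) : ℝ) ≤ N * x i := fun i =>
      Nat.floor_le (mul_nonneg hNp.le (hx i))
    have hv' : ∀ i, (N : ℝ) * x i < ((⌊(N : ℝ) * x i⌋₊ : ℕ) : ℝ) + 1 := fun i =>
      Nat.lt_floor_add_one _
    have hsq' : ∑ i, ⌊(N : ℝ) * x i⌋₊ ^ 2 ≤ ⌈(N : ℝ) * a⌉₊ ^ 2 := by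
      have : ((∑ i, ⌊(N : ℝ) * x i⌋₊ ^ 2 : ℕ) : ℝ) ≤ ((⌈(N : ℝ) * a⌉₊ ^ 2 : ℕ) : ℝ) := by
        push_cast
        have g1 : ∑ i, ((⌊(N : ℝ) * x i⌋₊ : ℕ) : ℝ) ^ 2 ≤ ∑ i, (N * x i) ^ 2 :=
          Finset.sum_le_sum fun i _ => pow_le_pow_left₀ (Nat.cast_nonneg _) (hv i) 2
        have g2 : ∑ i, ((N : ℝ) * x i) ^ 2 = (N : ℝ) ^ 2 * ∑ i, x i ^ 2 := by
          rw [Finset.mul_sum]
          exact Finset.sum_congr rfl fun i _ => by ring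
        have g3 : (N : ℝ) ^ 2 * ∑ i, x i ^ 2 ≤ (N : ℝ) ^ 2 * a ^ 2 :=
          mul_le_mul_of_nonneg_left hsq (by positivity)
        have g4 : ((N : ℝ) * a) ^ 2 ≤ ((⌈(N : ℝ) * a⌉₊ : ℕ) : ℝ) ^ 2 :=
          pow_le_pow_left₀ (by positivity) hd 2
        nlinarith
      exact_mod_cast this
    have hres := hNE (P := P) (k0 := 0) hsq' (fun k _ => by
      have hun := round_un x c hx hgr N h3 (hN1 N h1) k
      have hgr' := hUG (κ := ∑ i, k * ⌊(N : ℝ) * x i⌋₊) hun (fun i hi =>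
        lt_of_lt_of_le Nat.lt_two_pow_self (Nat.pow_le_pow_right (by norm_num)
          (Finset.single_le_sum (f := fun i => k * ⌊(N : ℝ) * x i⌋₊) (fun j _ => Nat.zero_le _) hi)))
      exact hEP (d := k * ⌈(N : ℝ) * a⌉₊) hgr' hP) G e u hG hGh hvan
    have hres' : ∑ i, ((⌊(N : ℝ) * x i⌋₊ : ℕ) : ℝ) * (u i : ℝ) ≤
        ((⌈(N : ℝ) * a⌉₊ : ℕ) : ℝ) * e := by exact_mod_cast hres
    have g1 : ∑ i, ((N : ℝ) * x i - 1) * (u i : ℝ) ≤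
        ∑ i, ((⌊(N : ℝ) * x i⌋₊ : ℕ) : ℝ) * (u i : ℝ) :=
      Finset.sum_le_sum fun i _ => mul_le_mul_of_nonneg_right (by linarith [hv' i])
        (Nat.cast_nonneg _)
    have g2 : ∑ i, ((N : ℝ) * x i - 1) * (u i : ℝ) =
        N * ∑ i, x i * (u i : ℝ) - ∑ i, (u i : ℝ) := by
      rw [Finset.mul_sum, ← Finset.sum_sub_distrib]
      exact Finset.sum_congr rfl fun i _ => by ring
    have g3 : ((⌈(N : ℝ) * a⌉₊ : ℕ) : ℝ) * e ≤ (N * a + 1) * e :=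
      mul_le_mul_of_nonneg_right hd' (Nat.cast_nonneg _)
    nlinarith
  by_contra hcon
  push Not at hcon
  have hδ : 0 < ∑ i, x i * (u i : ℝ) - a * e := by linarith
  obtain ⟨N3, hN3⟩ := exists_nat_gt ((e + ∑ i, (u i : ℝ)) / (∑ i, x i * (u i : ℝ) - a * e))
  rw [div_lt_iff₀ hδ] at hN3
  obtain ⟨N, hN⟩ : ∃ N : ℕ, N = max N1 (max N3 1) := ⟨_, rfl⟩
  have h1 := key N (by rw [hN]; exact le_max_left _ _)
    (by rw [hN]; exact (le_max_right _ _).trans (le_max_right _ _))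
  have h2 : (N3 : ℝ) ≤ N := by
    have : N3 ≤ N := by rw [hN]; exact (le_max_left _ _).trans (le_max_right _ _)
    exact_mod_cast this
  have h3 := mul_le_mul_of_nonneg_right h2 hδ.le
  linarith

end Pool.Agent.Q195.GR
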