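import Pool.Agent.H200G.Stm3

set_option autoImplicit false

/-! Jobs GR22, GR23 (ExpPure, ExpAb) of project GR (helper200). -/

namespace Pool.Agent.Q195.GR

open Finset Pool.Agent Pool.Agent.H200P Pool.Agent.H200W Pool.Agent.H932R3 Pool.Agent.W609.CR
open Pool.Agent.TH176.Nag Pool.Agent.TH603.Sur
open Pool.Agent.TH2.NU Pool.Agent.TH641.UM Pool.Agent.Y205.FW Pool.Agent.Y205.MD
open Pool.Agent.H200G

lemma map_eq_sum {ι : Type} (w : ι → ℕ) (B : Finset ι) :
    B.val.map w = ∑ i ∈ B, ({w i} : Multiset ℕ) := by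
  classical
  induction B using Finset.induction_on with
  | empty => rfl
  | insert a s ha ih =>
    rw [Finset.sum_insert ha, ← ih, Finset.insert_val_of_notMem ha, Multiset.map_cons,
      Multiset.singleton_add]

lemma filter_ne {n : ℕ} (w : Fin n → ℕ) (S : Finset (Fin n)) :
    (S.val.map w).filter (fun v => v ≠ 0) = (S.filter fun i => w i ≠ 0).val.map w := by
  rw [Multiset.filter_map, Finset.filter_val]
  rfl

/-- the groups of a graded family -/
lemma groups {n κ : ℕ} {w : Fin n → ℕ} {S : Finset (Fin n)} (h : Gr w S κ) :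
    ∃ (J : Finset ℕ) (W : ℕ → Multiset ℕ), (∀ k ∈ J, Grp k (W k)) ∧ (∀ k ∈ J, k ≤ κ) ∧
      ∑ k ∈ J, W k = (S.filter fun i => w i ≠ 0).val.map w := by
  classical
  obtain ⟨c, h1, h2⟩ := h
  refine ⟨(S.filter fun i => w i ≠ 0).image c,
    fun k => (S.filter fun i => c i = k ∧ w i ≠ 0).val.map w, ?_, ?_, ?_⟩
  · intro k hk
    rw [Finset.mem_image] at hk
    obtain ⟨i, hi, hik⟩ := hk
    rw [Finset.mem_filter] at hi
    refine ⟨?_, ?_, ?_⟩
    · intro h0
      have h0' : (S.filter fun i => c i = k ∧ w i ≠ 0).val.map w = 0 := h0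
      have h3 : w i ∈ (S.filter fun i => c i = k ∧ w i ≠ 0).val.map w :=
        Multiset.mem_map_of_mem _ (by
          rw [Finset.mem_val, Finset.mem_filter]
          exact ⟨hi.1, hik, hi.2⟩)
      rw [h0'] at h3
      exact absurd h3 (Multiset.notMem_zero _)
    · intro v hv
      rw [Multiset.mem_map] at hv
      obtain ⟨j, hj, rfl⟩ := hv
      rw [Finset.mem_val, Finset.mem_filter] at hj
      have h3 := (h1 j hj.1).1
      rw [hj.2.1] at h3
      exact ⟨Nat.one_le_iff_ne_zero.2 hj.2.2, h3⟩
    · have h3 : ((S.filter fun i => c i = k ∧ w i ≠ 0).val.map w).toFinset =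
          (S.filter fun i => c i = k ∧ w i ≠ 0).image w := rfl
      rw [h3]
      refine (h2 k).trans (le_of_eq ?_)
      rw [Multiset.map_map]
      have h4 : (Multiset.map ((fun v => v ^ 2) ∘ w) (S.filter fun i => c i = k ∧ w i ≠ 0).val).sum =
          ∑ i ∈ S.filter (fun i => c i = k ∧ w i ≠ 0), w i ^ 2 := rfl
      rw [h4]
      symm
      apply Finset.sum_subset
      · intro i hi
        rw [Finset.mem_filter] at hi ⊢
        exact ⟨hi.1, hi.2.1⟩
      · intro i hi hi'
        rw [Finset.mem_filter] at hi hi'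
        have : w i = 0 := by
          by_contra h0
          exact hi' ⟨hi.1, hi.2, h0⟩
        rw [this]
        rfl
  · intro k hk
    rw [Finset.mem_image] at hk
    obtain ⟨i, hi, rfl⟩ := hk
    rw [Finset.mem_filter] at hi
    exact (h1 i hi.1).2
  · rw [map_eq_sum]
    rw [← Finset.sum_fiberwise_of_maps_to (g := c) (t := (S.filter fun i => w i ≠ 0).image c)
      (fun i hi => Finset.mem_image_of_mem c hi)]
    apply Finset.sum_congr rfl
    intro k _
    show (S.filter fun i => c i = k ∧ w i ≠ 0).val.map w = _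
    rw [map_eq_sum, Finset.filter_filter]
    apply Finset.sum_congr _ (fun _ _ => rfl)
    ext i
    rw [Finset.mem_filter, Finset.mem_filter]
    tauto

lemma crkM_le_card (S : Finset (ℤ × ℤ)) (M : Multiset ℕ) : crkM S M ≤ S.card := by
  obtain ⟨T, h1, h2, h3⟩ := crk_spec S (vec M)
  unfold crkM
  omega

theorem expPure : S_ExpPure := by
  classical
  intro hP hR n d κ w hG
  obtain ⟨J, W, h1, h2, h3⟩ := groups hG
  rcases J.eq_empty_or_nonempty with h0 | h0
  · rw [h0, Finset.sum_empty] at h3
    apply hR (M := 0)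
    · rw [filter_ne, ← h3]
      rfl
    · have h4 : TH2.NU.condM 0 = 0 := rfl
      rw [h4, Nat.sub_zero]
      exact crkM_le_card _ _
  · apply hR (M := ∑ k ∈ J, W k)
    · rw [h3, filter_ne, filter_ne, Finset.filter_filter]
      simp only [and_self]
    · exact hP J W h0 h1

theorem expAb : S_ExpAb := by
  classical
  intro hK hR n d κ w A hW hG
  obtain ⟨J, W, h1, h2, h3⟩ := groups hG
  apply hR (M := A.val.map w + ∑ k ∈ J, W k)
  · rw [h3, Multiset.filter_add, filter_ne, filter_ne, filter_ne, Finset.filter_filter,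
      map_eq_sum, map_eq_sum, map_eq_sum, ← Finset.sum_union]
    · apply Finset.sum_congr _ (fun _ _ => rfl)
      ext i
      simp only [Finset.mem_union, Finset.mem_filter, Finset.mem_sdiff, Finset.mem_univ, true_and]
      tauto
    · rw [Finset.disjoint_left]
      intro i hi hi'
      rw [Finset.mem_filter] at hi hi'
      rw [Finset.mem_sdiff] at hi'
      exact hi'.1.2 hi.1
  · apply hK _ J W _ h1 hW
    · intro k hk
      have h4 : (2 : ℝ) ^ k ≤ 2 ^ κ := pow_le_pow_right₀ (by norm_num) (h2 k hk)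
      unfold et
      linarith
    · have h4 : (1 : ℝ) ≤ 2 ^ κ := one_le_pow₀ (by norm_num)
      linarith

end Pool.Agent.Q195.GR
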